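import Mathlib

/-!
# Sequences of arithmetic and harmonic means with two delays converge; backward limits
(helper file for MP_247194_an, helper676)
-/

set_option autoImplicit false

namespace Pool.Agent.N676.BR

open Filter Topology

/-- The limits of the shifted sequences along an ultrafilter. -/
theorem back {x : ℕ → ℝ} {c C : ℝ} (hx : ∀ n, c ≤ x n ∧ x n ≤ C) (U : Ultrafilter ℕ)
    (hU : (U : Filter ℕ) ≤ atTop) : ∃ f : ℕ → ℝ, (∀ j : ℕ, Tendsto (fun n : ℕ => x (n - j)) U (𝓝 (f j))) ∧
      (∀ j, c ≤ f j ∧ f j ≤ C) ∧ ∀ j, MapClusterPt (f j) atTop x := by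
  have h1 : ∀ j : ℕ, ∃ y ∈ Set.Icc c C, Tendsto (fun n => x (n - j)) U (𝓝 y) := by
    intro j
    have h2 : ((U.map (fun n : ℕ => x (n - j)) : Ultrafilter ℝ) : Filter ℝ) ≤ 𝓟 (Set.Icc c C) := by
      rw [le_principal_iff, Ultrafilter.coe_map]
      exact Filter.mem_map.2 (Filter.univ_mem' fun n : ℕ => hx (n - j))
    obtain ⟨y, hy, h3⟩ := isCompact_Icc.ultrafilter_le_nhds _ h2
    exact ⟨y, hy, h3⟩
  choose f hf1 hf2 using h1
  refine ⟨f, hf2, fun j => hf1 j, fun j => ?_⟩
  rw [mapClusterPt_iff_ultrafilter]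
  refine ⟨U.map (fun n : ℕ => n - j), ?_, ?_⟩
  · refine le_trans (Filter.map_mono hU) ?_
    exact tendsto_sub_atTop_nat j
  · have := hf2 j
    exact this

/-- The largest and the smallest cluster point. -/
theorem extreme {x : ℕ → ℝ} {c C : ℝ} (hx : ∀ n, c ≤ x n ∧ x n ≤ C) :
    ∃ m M : ℝ, MapClusterPt m atTop x ∧ MapClusterPt M atTop x ∧
      (∀ y, MapClusterPt y atTop x → m ≤ y ∧ y ≤ M) := by
  have hcl : IsClosed {y : ℝ | MapClusterPt y atTop x} := isClosed_setOfPred_clusterPt
  have hsub : {y : ℝ | MapClusterPt y atTop x} ⊆ Set.Icc c C := by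
    intro y hy
    exact isClosed_Icc.mem_of_mapClusterPt hy (Eventually.of_forall hx)
  have hcpt : IsCompact {y : ℝ | MapClusterPt y atTop x} := isCompact_Icc.of_isClosed_subset hcl hsub
  have hne : {y : ℝ | MapClusterPt y atTop x}.Nonempty := by
    obtain ⟨f, _, _, h⟩ := back hx (Ultrafilter.of atTop) (Ultrafilter.of_le atTop)
    exact ⟨f 0, h 0⟩
  refine ⟨sInf {y : ℝ | MapClusterPt y atTop x}, sSup {y : ℝ | MapClusterPt y atTop x},
    hcpt.sInf_mem hne, hcpt.sSup_mem hne, fun y hy => ⟨?_, ?_⟩⟩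
  · exact csInf_le hcpt.bddBelow hy
  · exact le_csSup hcpt.bddAbove hy

theorem tendsto_of_unique {x : ℕ → ℝ} {c C : ℝ} (hx : ∀ n, c ≤ x n ∧ x n ≤ C) {y : ℝ}
    (h : ∀ z, MapClusterPt z atTop x → z = y) : Tendsto x atTop (𝓝 y) :=
  isCompact_Icc.tendsto_nhds_of_unique_mapClusterPt (Eventually.of_forall hx) fun z _ hz => h z hz

/-- **Sequences of means converge.** Every term is the arithmetic or the harmonic mean of the terms `p` and `q`
places before, `p` and `q` are coprime. -/
theorem means {z : ℕ → ℝ} {p q : ℕ} (hp : 0 < p) (hq : 0 < q) (hpq : p.Coprime q) (hz : ∀ n, 0 < z n)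
    (h : ∀ n, max p q ≤ n → z n = (z (n - p) + z (n - q)) / 2 ∨
      z n = 2 / (1 / z (n - p) + 1 / z (n - q))) : ∃ φ : ℝ, 0 < φ ∧ Tendsto z atTop (𝓝 φ) := by
  -- means are between the minimum and the maximum
  have hmean : ∀ c C u v w : ℝ, 0 < c → c ≤ u → u ≤ C → c ≤ v → v ≤ C →
      (w = (u + v) / 2 ∨ w = 2 / (1 / u + 1 / v)) → c ≤ w ∧ w ≤ C := by
    intro c C u v w hc h1 h2 h3 h4 hw
    have hu : 0 < u := hc.trans_le h1
    have hv : 0 < v := hc.trans_le h3
    have hC : 0 < C := hu.trans_le h2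
    rcases hw with rfl | rfl
    · constructor <;> linarith
    · have e : 0 < 1 / u + 1 / v := by positivity
      have k1 : 1 / u ≤ 1 / c := one_div_le_one_div_of_le hc h1
      have k2 : 1 / v ≤ 1 / c := one_div_le_one_div_of_le hc h3
      have k3 : 1 / C ≤ 1 / u := one_div_le_one_div_of_le hu h2
      have k4 : 1 / C ≤ 1 / v := one_div_le_one_div_of_le hv h4
      constructor
      · rw [le_div_iff₀ e]
        have : c * (1 / u + 1 / v) ≤ c * (1 / c + 1 / c) :=
          mul_le_mul_of_nonneg_left (add_le_add k1 k2) hc.le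
        have e2 : c * (1 / c + 1 / c) = 2 := by field_simp; norm_num
        linarith
      · rw [div_le_iff₀ e]
        have : C * (1 / C + 1 / C) ≤ C * (1 / u + 1 / v) :=
          mul_le_mul_of_nonneg_left (add_le_add k3 k4) hC.le
        have e2 : C * (1 / C + 1 / C) = 2 := by field_simp; norm_num
        linarith
  -- bounds propagate
  have hprop : ∀ c C : ℝ, 0 < c → ∀ n₀ : ℕ, (∀ j < max p q, c ≤ z (n₀ + j) ∧ z (n₀ + j) ≤ C) →
      ∀ n, n₀ ≤ n → c ≤ z n ∧ z n ≤ C := by
    intro c C hc n₀ hw n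
    induction n using Nat.strong_induction_on with
    | _ n ih =>
      intro hn
      by_cases hlt : n < n₀ + max p q
      · have := hw (n - n₀) (by omega)
        rwa [Nat.add_sub_cancel' hn] at this
      · push Not at hlt
        have hp' : p ≤ max p q := le_max_left _ _
        have hq' : q ≤ max p q := le_max_right _ _
        have i1 := ih (n - p) (by omega) (by omega)
        have i2 := ih (n - q) (by omega) (by omega)
        exact hmean c C _ _ _ hc i1.1 i1.2 i2.1 i2.2 (h n (by omega))
  -- global bounds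
  obtain ⟨c, C, hc, hb⟩ : ∃ c C : ℝ, 0 < c ∧ ∀ n, c ≤ z n ∧ z n ≤ C := by
    have hN : 0 < max p q := lt_of_lt_of_le hp (le_max_left _ _)
    have hne : (Finset.range (max p q)).Nonempty := ⟨0, Finset.mem_range.2 hN⟩
    refine ⟨(Finset.range (max p q)).inf' hne z, (Finset.range (max p q)).sup' hne z, ?_, fun n => ?_⟩
    · rw [Finset.lt_inf'_iff]
      exact fun i _ => hz i
    · refine hprop _ _ ?_ 0 (fun j hj => ?_) n (Nat.zero_le n)
      · rw [Finset.lt_inf'_iff]
        exact fun i _ => hz i
      · rw [Nat.zero_add]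
        exact ⟨Finset.inf'_le z (Finset.mem_range.2 hj), Finset.le_sup' z (Finset.mem_range.2 hj)⟩
  obtain ⟨m, M, _, hM, hext⟩ := extreme hb
  obtain ⟨U, hU, hUM⟩ := mapClusterPt_iff_ultrafilter.1 hM
  obtain ⟨f, hf1, hf2, hf3⟩ := back hb U hU
  have hf0 : f 0 = M := by
    have h1 := hf1 0
    simp only [Nat.sub_zero] at h1
    exact tendsto_nhds_unique h1 hUM
  have hfpos : ∀ j, 0 < f j := fun j => hc.trans_le (hf2 j).1
  have hrec : ∀ j, f j = (f (j + p) + f (j + q)) / 2 ∨ f j = 2 / (1 / f (j + p) + 1 / f (j + q)) := by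
    intro j
    have h1 : ∀ᶠ n in (U : Filter ℕ), z (n - j) = (z (n - (j + p)) + z (n - (j + q))) / 2 ∨
        z (n - j) = 2 / (1 / z (n - (j + p)) + 1 / z (n - (j + q))) := by
      filter_upwards [hU (eventually_ge_atTop (j + max p q))] with n hn
      have := h (n - j) (by omega)
      rwa [Nat.sub_sub, Nat.sub_sub] at this
    rw [Ultrafilter.eventually_or] at h1
    rcases h1 with h1 | h1
    · left
      have h2 : Tendsto (fun n => (z (n - (j + p)) + z (n - (j + q))) / 2) U
          (𝓝 ((f (j + p) + f (j + q)) / 2)) := ((hf1 _).add (hf1 _)).div_const 2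
      exact tendsto_nhds_unique (hf1 j) (h2.congr' (h1.mono fun n hn => hn.symm))
    · right
      have h2 : Tendsto (fun n => 2 / (1 / z (n - (j + p)) + 1 / z (n - (j + q)))) U
          (𝓝 (2 / (1 / f (j + p) + 1 / f (j + q)))) := by
        refine Tendsto.div tendsto_const_nhds ?_ ?_
        · refine Tendsto.add ?_ ?_
          · exact Tendsto.div tendsto_const_nhds (hf1 _) (hfpos _).ne'
          · exact Tendsto.div tendsto_const_nhds (hf1 _) (hfpos _).ne'
        · have h3 := hfpos (j + p)
          have h4 := hfpos (j + q)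
          positivity
      exact tendsto_nhds_unique (hf1 j) (h2.congr' (h1.mono fun n hn => hn.symm))
  have hMpos : 0 < M := hf0 ▸ hfpos 0
  have hstep : ∀ j, f j = M → f (j + p) = M ∧ f (j + q) = M := by
    intro j hj
    have k1 : f (j + p) ≤ M := (hext _ (hf3 _)).2
    have k2 : f (j + q) ≤ M := (hext _ (hf3 _)).2
    have h3 := hfpos (j + p)
    have h4 := hfpos (j + q)
    rcases hrec j with h1 | h1
    · rw [hj] at h1
      constructor <;> linarith
    · rw [hj] at h1
      have e : 0 < 1 / f (j + p) + 1 / f (j + q) := by positivity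
      rw [eq_div_iff e.ne'] at h1
      have k3 : 1 ≤ M * (1 / f (j + p)) := by
        rw [mul_one_div, le_div_iff₀ h3]
        linarith
      have k4 : 1 ≤ M * (1 / f (j + q)) := by
        rw [mul_one_div, le_div_iff₀ h4]
        linarith
      rw [mul_add] at h1
      have k5 : M * (1 / f (j + p)) = 1 := by linarith
      have k6 : M * (1 / f (j + q)) = 1 := by linarith
      rw [mul_one_div, div_eq_one_iff_eq h3.ne'] at k5
      rw [mul_one_div, div_eq_one_iff_eq h4.ne'] at k6
      exact ⟨k5.symm, k6.symm⟩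
  have hall : ∀ i j : ℕ, f (i * p + j * q) = M := by
    intro i
    induction i with
    | zero =>
      intro j
      induction j with
      | zero => simpa using hf0
      | succ j ih =>
        have := (hstep _ ih).2
        rwa [show 0 * p + j * q + q = 0 * p + (j + 1) * q by ring] at this
    | succ i ih =>
      intro j
      have := (hstep _ (ih j)).1
      rwa [show i * p + j * q + p = (i + 1) * p + j * q by ring] at this
  have hlarge : ∀ n, p * q ≤ n → f n = M := by
    intro n hn
    obtain ⟨i, j, hij⟩ : ∃ i j : ℕ, i * p + j * q = n := by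
      refine Nat.exists_add_mul_eq_of_gcd_dvd_of_mul_pred_le p q n ?_ ?_
      · rw [hpq.gcd_eq_one]
        exact one_dvd n
      · refine le_trans ?_ hn
        exact Nat.mul_le_mul (Nat.pred_le p) (Nat.pred_le q)
    rw [← hij]
    exact hall i j
  refine ⟨M, hMpos, tendsto_of_unique hb fun y hy => le_antisymm (hext y hy).2 ?_⟩
  refine le_of_forall_pos_sub_le fun ε hε => ?_
  -- a window of terms above `M - ε`
  rcases le_or_gt (M - ε) 0 with h0 | h0
  · have : c ≤ y := by
      exact isClosed_Ici.mem_of_mapClusterPt hy (Eventually.of_forall fun n => (hb n).1)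
    linarith
  have hwin : ∀ᶠ n in (U : Filter ℕ), ∀ j ∈ Finset.range (max p q), M - ε ≤ z (n - (p * q + j)) := by
    rw [Filter.eventually_all_finset]
    intro j _
    have h1 := hf1 (p * q + j)
    rw [hlarge _ (by omega)] at h1
    exact (h1.eventually (lt_mem_nhds (by linarith : M - ε < M))).mono fun n hn => le_of_lt hn
  obtain ⟨n, hn1, hn2⟩ := (hwin.and (hU (eventually_ge_atTop (p * q + max p q)))).exists
  have hev : ∀ t, n - (p * q + max p q) + 1 ≤ t → M - ε ≤ z t := by
    intro t ht
    refine (hprop (M - ε) C h0 (n - (p * q + max p q) + 1) (fun j hj => ?_) t ht).1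
    refine ⟨?_, (hb _).2⟩
    have := hn1 (max p q - 1 - j) (Finset.mem_range.2 (by omega))
    rwa [show n - (p * q + (max p q - 1 - j)) = n - (p * q + max p q) + 1 + j by omega] at this
  exact isClosed_Ici.mem_of_mapClusterPt hy ((eventually_ge_atTop _).mono hev)

end Pool.Agent.N676.BR
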