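import Pool.Agent.N676.BR.Mean

/-!
# The difference equation `x n = 1 / x (n - a) + 1 / x (n - b)`
(helper file for MP_247194_an, helper676)
-/

set_option autoImplicit false

namespace Pool.Agent.N676.BR

open Filter Topology

/-- A positive sequence with `x n = 1 / x (n - a) + 1 / x (n - b)` for `n ≥ max a b`. -/
structure Sol (a b : ℕ) (x : ℕ → ℝ) : Prop where
  pos : ∀ n, 0 < x n
  req : ∀ n, max a b ≤ n → x n = 1 / x (n - a) + 1 / x (n - b)

theorem Sol.symm {a b : ℕ} {x : ℕ → ℝ} (h : Sol a b x) : Sol b a x :=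
  ⟨h.pos, fun n hn => by rw [h.req n (by rwa [max_comm]), add_comm]⟩

theorem Sol.bound {a b : ℕ} (ha : 0 < a) (hb : 0 < b) {x : ℕ → ℝ} (h : Sol a b x) :
    ∃ c : ℝ, 0 < c ∧ ∀ n, c ≤ x n ∧ x n ≤ 2 / c := by
  have hN : 0 < max a b := lt_of_lt_of_le ha (le_max_left _ _)
  have hne : (Finset.range (max a b)).Nonempty := ⟨0, Finset.mem_range.2 hN⟩
  obtain ⟨mn, hmn⟩ : ∃ y, y = (Finset.range (max a b)).inf' hne x := ⟨_, rfl⟩
  obtain ⟨mx, hmx⟩ : ∃ y, y = (Finset.range (max a b)).sup' hne x := ⟨_, rfl⟩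
  have h1 : 0 < mn := by
    rw [hmn, Finset.lt_inf'_iff]
    exact fun i _ => h.pos i
  have h2 : ∀ j < max a b, mn ≤ x j ∧ x j ≤ mx := by
    intro j hj
    rw [hmn, hmx]
    exact ⟨Finset.inf'_le x (Finset.mem_range.2 hj), Finset.le_sup' x (Finset.mem_range.2 hj)⟩
  have h3 : 0 < mx := h1.trans_le ((h2 0 hN).1.trans (h2 0 hN).2)
  have hc : 0 < min mn (2 / mx) := lt_min h1 (by positivity)
  refine ⟨min mn (2 / mx), hc, fun n => ?_⟩
  induction n using Nat.strong_induction_on with
  | _ n ih =>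
    by_cases hlt : n < max a b
    · refine ⟨(min_le_left _ _).trans (h2 n hlt).1, (h2 n hlt).2.trans ?_⟩
      rw [le_div_iff₀ hc]
      have := min_le_right mn (2 / mx)
      rw [le_div_iff₀ h3] at this
      linarith
    · push Not at hlt
      have ha' : a ≤ max a b := le_max_left _ _
      have hb' : b ≤ max a b := le_max_right _ _
      obtain ⟨i1, i2⟩ := ih (n - a) (by omega)
      obtain ⟨i3, i4⟩ := ih (n - b) (by omega)
      rw [h.req n hlt]
      set c := min mn (2 / mx) with hcdef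
      have k1 : 1 / x (n - a) ≤ 1 / c := one_div_le_one_div_of_le hc i1
      have k2 : 1 / x (n - b) ≤ 1 / c := one_div_le_one_div_of_le hc i3
      have k3 : 1 / (2 / c) ≤ 1 / x (n - a) := one_div_le_one_div_of_le (h.pos _) i2
      have k4 : 1 / (2 / c) ≤ 1 / x (n - b) := one_div_le_one_div_of_le (h.pos _) i4
      rw [one_div_div] at k3 k4
      have e : 2 / c = 1 / c + 1 / c := by ring
      constructor <;> linarith

theorem Sol.tendsto {a b : ℕ} (ha : 0 < a) (hb : 0 < b) {x : ℕ → ℝ} (h : Sol a b x) {i j : ℕ}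
    (hij : i * a = j * b) (hi : Even i) (hj : ¬ Even j) : Tendsto x atTop (𝓝 √2) := by
  obtain ⟨c, hc, hbd⟩ := h.bound ha hb
  obtain ⟨m, M, hm, hM, hext⟩ := extreme hbd
  have key : ∀ y, MapClusterPt y atTop x → ∃ f : ℕ → ℝ, f 0 = y ∧
      (∀ j, m ≤ f j ∧ f j ≤ M) ∧ (∀ j, 0 < f j) ∧
      ∀ j, f j = 1 / f (j + a) + 1 / f (j + b) := by
    intro y hy
    obtain ⟨U, hU, hUy⟩ := mapClusterPt_iff_ultrafilter.1 hy
    obtain ⟨f, hf1, hf2, hf3⟩ := back hbd U hU
    have hfpos : ∀ j, 0 < f j := fun j => hc.trans_le (hf2 j).1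
    refine ⟨f, ?_, fun j => hext _ (hf3 j), hfpos, fun j => ?_⟩
    · have h1 := hf1 0
      simp only [Nat.sub_zero] at h1
      exact tendsto_nhds_unique h1 hUy
    · have h2 : Tendsto (fun n : ℕ => 1 / x (n - (j + a)) + 1 / x (n - (j + b))) U
          (𝓝 (1 / f (j + a) + 1 / f (j + b))) :=
        Tendsto.add (Tendsto.div tendsto_const_nhds (hf1 _) (hfpos _).ne')
          (Tendsto.div tendsto_const_nhds (hf1 _) (hfpos _).ne')
      refine tendsto_nhds_unique (hf1 j) (h2.congr' ?_)
      filter_upwards [hU (eventually_ge_atTop (j + max a b))] with n hn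
      rw [h.req (n - j) (by omega), Nat.sub_sub, Nat.sub_sub]
  obtain ⟨f, hf0, hf1, hf2, hf3⟩ := key M hM
  obtain ⟨f', hf0', hf1', hf2', hf3'⟩ := key m hm
  have hMpos : 0 < M := hf0 ▸ hf2 0
  have hmpos : 0 < m := hf0' ▸ hf2' 0
  have hle : m * M ≤ 2 := by
    have e := hf3 0
    rw [hf0, Nat.zero_add, Nat.zero_add] at e
    have k1 : 1 / f a ≤ 1 / m := one_div_le_one_div_of_le hmpos (hf1 a).1
    have k2 : 1 / f b ≤ 1 / m := one_div_le_one_div_of_le hmpos (hf1 b).1
    have k3 : M ≤ 2 / m := by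
      have : 2 / m = 1 / m + 1 / m := by ring
      linarith
    rw [le_div_iff₀ hmpos] at k3
    linarith
  have hge : 2 ≤ m * M := by
    have e := hf3' 0
    rw [hf0', Nat.zero_add, Nat.zero_add] at e
    have k1 : 1 / M ≤ 1 / f' a := one_div_le_one_div_of_le (hf2' a) (hf1' a).2
    have k2 : 1 / M ≤ 1 / f' b := one_div_le_one_div_of_le (hf2' b) (hf1' b).2
    have k3 : 2 / M ≤ m := by
      have : 2 / M = 1 / M + 1 / M := by ring
      linarith
    rwa [div_le_iff₀ hMpos] at k3
  have hmM : m * M = 2 := le_antisymm hle hge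
  have s1 : ∀ k, f k = M → f (k + a) = m ∧ f (k + b) = m := by
    intro k hk
    have e := hf3 k
    have k1 : 1 / f (k + a) ≤ 1 / m := one_div_le_one_div_of_le hmpos (hf1 _).1
    have k2 : 1 / f (k + b) ≤ 1 / m := one_div_le_one_div_of_le hmpos (hf1 _).1
    have e2 : M = 1 / m + 1 / m := by
      field_simp
      linarith
    rw [hk] at e
    have e3 : 1 / f (k + a) = 1 / m := by linarith
    have e4 : 1 / f (k + b) = 1 / m := by linarith
    rw [one_div, one_div, inv_inj] at e3 e4
    exact ⟨e3, e4⟩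
  have s2 : ∀ k, f k = m → f (k + a) = M ∧ f (k + b) = M := by
    intro k hk
    have e := hf3 k
    have k1 : 1 / M ≤ 1 / f (k + a) := one_div_le_one_div_of_le (hf2 _) (hf1 _).2
    have k2 : 1 / M ≤ 1 / f (k + b) := one_div_le_one_div_of_le (hf2 _) (hf1 _).2
    have e2 : m = 1 / M + 1 / M := by
      field_simp
      linarith
    rw [hk] at e
    have e3 : 1 / f (k + a) = 1 / M := by linarith
    have e4 : 1 / f (k + b) = 1 / M := by linarith
    rw [one_div, one_div, inv_inj] at e3 e4
    exact ⟨e3, e4⟩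
  have ta : ∀ k : ℕ, f (k * a) = if Even k then M else m := by
    intro k
    induction k with
    | zero => simpa using hf0
    | succ k ih =>
      have e : (k + 1) * a = k * a + a := by ring
      by_cases hk : Even k
      · rw [if_pos hk] at ih
        rw [if_neg (by rw [Nat.even_add_one]; exact not_not.2 hk), e]
        exact (s1 _ ih).1
      · rw [if_neg hk] at ih
        rw [if_pos (by rw [Nat.even_add_one]; exact hk), e]
        exact (s2 _ ih).1
  have tb : ∀ k : ℕ, f (k * b) = if Even k then M else m := by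
    intro k
    induction k with
    | zero => simpa using hf0
    | succ k ih =>
      have e : (k + 1) * b = k * b + b := by ring
      by_cases hk : Even k
      · rw [if_pos hk] at ih
        rw [if_neg (by rw [Nat.even_add_one]; exact not_not.2 hk), e]
        exact (s1 _ ih).2
      · rw [if_neg hk] at ih
        rw [if_pos (by rw [Nat.even_add_one]; exact hk), e]
        exact (s2 _ ih).2
  have hEq : M = m := by
    have e1 := ta i
    have e2 := tb j
    rw [if_pos hi] at e1
    rw [if_neg hj, ← hij] at e2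
    exact e1.symm.trans e2
  have hval : M = √2 := by
    rw [eq_comm, Real.sqrt_eq_iff_mul_self_eq (by norm_num) hMpos.le]
    rw [← hEq] at hmM
    linarith
  refine tendsto_of_unique hbd fun y hy => ?_
  have := hext y hy
  rw [← hval]
  exact le_antisymm this.2 (hEq.le.trans this.1)

/-- The valuations at 2 of `a` and `b` are different: an even multiple of one of them is an odd multiple of the other. -/
theorem exists_mult {a b : ℕ} (ha : 0 < a) (hb : 0 < b) (h : padicValNat 2 a < padicValNat 2 b) :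
    ∃ i j : ℕ, i * a = j * b ∧ Even i ∧ ¬ Even j := by
  obtain ⟨α, a', ha', rfl⟩ := Nat.exists_eq_two_pow_mul_odd ha.ne'
  obtain ⟨β, b', hb', rfl⟩ := Nat.exists_eq_two_pow_mul_odd hb.ne'
  have hval : ∀ (k m : ℕ), Odd m → padicValNat 2 (2 ^ k * m) = k := by
    intro k m hm
    have h1 : m ≠ 0 := by
      rintro rfl
      simp at hm
    rw [padicValNat.mul (by positivity) h1, padicValNat.prime_pow,
      padicValNat.eq_zero_of_not_dvd (by rw [← even_iff_two_dvd, Nat.not_even_iff_odd]; exact hm), add_zero]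
  rw [hval α a' ha', hval β b' hb'] at h
  refine ⟨2 ^ (β - α) * b', a', ?_, ?_, Nat.not_even_iff_odd.2 ha'⟩
  · have : 2 ^ β = 2 ^ (β - α) * 2 ^ α := by
      rw [← pow_add]
      congr 1
      omega
    rw [this]
    ring
  · exact ((Nat.even_pow.2 ⟨even_two, by omega⟩).mul_right _)

/-- The valuations at 2 of `a` and `b` are equal: `a / gcd` and `b / gcd` are odd. -/
theorem odd_parts {a b : ℕ} (ha : 0 < a) (hb : 0 < b) (h : padicValNat 2 a = padicValNat 2 b) :
    Odd (a / a.gcd b) ∧ Odd (b / a.gcd b) := by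
  have hg : 0 < a.gcd b := Nat.gcd_pos_of_pos_left _ ha
  have e1 : a / a.gcd b * a.gcd b = a := Nat.div_mul_cancel (Nat.gcd_dvd_left a b)
  have e2 : b / a.gcd b * a.gcd b = b := Nat.div_mul_cancel (Nat.gcd_dvd_right a b)
  have hp : 0 < a / a.gcd b := Nat.div_pos (Nat.le_of_dvd ha (Nat.gcd_dvd_left a b)) hg
  have hq : 0 < b / a.gcd b := Nat.div_pos (Nat.le_of_dvd hb (Nat.gcd_dvd_right a b)) hg
  have v1 : padicValNat 2 a = padicValNat 2 (a / a.gcd b) + padicValNat 2 (a.gcd b) := by
    conv_lhs => rw [← e1]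
    exact padicValNat.mul hp.ne' hg.ne'
  have v2 : padicValNat 2 b = padicValNat 2 (b / a.gcd b) + padicValNat 2 (a.gcd b) := by
    conv_lhs => rw [← e2]
    exact padicValNat.mul hq.ne' hg.ne'
  have hv : padicValNat 2 (a / a.gcd b) = padicValNat 2 (b / a.gcd b) := by omega
  have hcop : (a / a.gcd b).Coprime (b / a.gcd b) := Nat.coprime_div_gcd_div_gcd hg
  have hnot : ¬ (2 ∣ a / a.gcd b ∧ 2 ∣ b / a.gcd b) := by
    rintro ⟨d1, d2⟩
    have := Nat.dvd_gcd d1 d2
    rw [hcop.gcd_eq_one] at this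
    omega
  have hiff : 2 ∣ a / a.gcd b ↔ 2 ∣ b / a.gcd b := by
    rw [dvd_iff_padicValNat_ne_zero hp.ne', dvd_iff_padicValNat_ne_zero hq.ne', hv]
  constructor
  · rw [← Nat.not_even_iff_odd, even_iff_two_dvd]
    exact fun d => hnot ⟨d, hiff.1 d⟩
  · rw [← Nat.not_even_iff_odd, even_iff_two_dvd]
    exact fun d => hnot ⟨hiff.2 d, d⟩

/-- The terms in one residue class modulo `g`, every second one replaced by `2 / x`. -/
noncomputable def zz (g : ℕ) (x : ℕ → ℝ) (r t : ℕ) : ℝ :=
  if Even t then x (r + g * t) else 2 / x (r + g * t)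

/-- **Convergence to solutions of period `2 gcd`.** -/
theorem Sol.limits {a b : ℕ} (ha : 0 < a) (hb : 0 < b) {x : ℕ → ℝ} (h : Sol a b x)
    (hpo : Odd (a / a.gcd b)) (hqo : Odd (b / a.gcd b)) (r : ℕ) :
    ∃ φ : ℝ, 0 < φ ∧ Tendsto (zz (a.gcd b) x r) atTop (𝓝 φ) := by
  obtain ⟨g, hgdef⟩ : ∃ g, g = a.gcd b := ⟨_, rfl⟩
  obtain ⟨p, hpdef⟩ : ∃ p, p = a / a.gcd b := ⟨_, rfl⟩
  obtain ⟨q, hqdef⟩ : ∃ q, q = b / a.gcd b := ⟨_, rfl⟩
  have hg : 0 < a.gcd b := Nat.gcd_pos_of_pos_left _ ha
  have e1 : g * p = a := by rw [hgdef, hpdef]; exact Nat.mul_div_cancel' (Nat.gcd_dvd_left a b)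
  have e2 : g * q = b := by rw [hgdef, hqdef]; exact Nat.mul_div_cancel' (Nat.gcd_dvd_right a b)
  have hcop : p.Coprime q := by rw [hpdef, hqdef]; exact Nat.coprime_div_gcd_div_gcd hg
  rw [← hpdef] at hpo
  rw [← hqdef] at hqo
  rw [← hgdef]
  have hp : 0 < p := hpo.pos
  have hq : 0 < q := hqo.pos
  refine means hp hq hcop (fun n => ?_) (fun n hn => ?_)
  · unfold zz
    have := h.pos (r + g * n)
    split_ifs
    · exact this
    · positivity
  · have hpn : p ≤ n := (le_max_left _ _).trans hn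
    have hqn : q ≤ n := (le_max_right _ _).trans hn
    have hA : a ≤ g * n := by rw [← e1]; exact Nat.mul_le_mul_left g hpn
    have hB : b ≤ g * n := by rw [← e2]; exact Nat.mul_le_mul_left g hqn
    have hr := h.req (r + g * n) (max_le (by omega) (by omega))
    have i1 : r + g * n - a = r + g * (n - p) := by
      rw [Nat.mul_sub, e1]
      omega
    have i2 : r + g * n - b = r + g * (n - q) := by
      rw [Nat.mul_sub, e2]
      omega
    rw [i1, i2] at hr
    have x1 := h.pos (r + g * (n - p))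
    have x2 := h.pos (r + g * (n - q))
    by_cases hev : Even n
    · left
      have n1 : ¬ Even (n - p) := by
        rw [Nat.even_sub hpn]
        intro hh
        exact (Nat.not_even_iff_odd.2 hpo) (hh.1 hev)
      have n2 : ¬ Even (n - q) := by
        rw [Nat.even_sub hqn]
        intro hh
        exact (Nat.not_even_iff_odd.2 hqo) (hh.1 hev)
      simp only [zz, if_pos hev, if_neg n1, if_neg n2]
      rw [hr]
      field_simp
    · right
      have n1 : Even (n - p) := by
        rw [Nat.even_sub hpn]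
        constructor
        · exact fun hh => absurd hh hev
        · exact fun hh => absurd hh (Nat.not_even_iff_odd.2 hpo)
      have n2 : Even (n - q) := by
        rw [Nat.even_sub hqn]
        constructor
        · exact fun hh => absurd hh hev
        · exact fun hh => absurd hh (Nat.not_even_iff_odd.2 hqo)
      simp only [zz, if_neg hev, if_pos n1, if_pos n2]
      rw [hr]

end Pool.Agent.N676.BR
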